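import Pool.Agent.MP_5c28a4_al.H89.Spec

set_option autoImplicit false

namespace Pool.Agent.MP_5c28a4_al.H72

open Pool.Agent.Burnside6 Pool.Agent.MP_5c28a4_al.H89

theorem Fk_mono {k k' : ℕ} (h : k ≤ k') : Fk k ≤ Fk k' :=
  Subgroup.closure_mono (Set.image_mono fun l (hl : l < _) => lt_of_lt_of_le hl h)

theorem ex_ge2 (a b : ℕ) : ∃ c, a ≤ c ∧ b ≤ c := ⟨max a b, le_max_left _ _, le_max_right _ _⟩

theorem ex_ge3 (a b d : ℕ) : ∃ c, a ≤ c ∧ b < c ∧ d < c :=
  ⟨a + b + d + 1, by omega, by omega, by omega⟩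

theorem exLaw (c N : ℕ) (v : F) : ∃ l : Law, l.code = c ∧ l.v = v ∧ N < l.n ∧
    (v ∈ commutator F → l.Ok) := by
  obtain ⟨k0, hk0⟩ := exists_Fk v
  have hk : v ∈ Fk (k0 + 1) := Fk_mono (Nat.le_succ _) hk0
  obtain ⟨L, hL⟩ : ∃ L, cL * (Le + (k0 + 1) + 1) + aE + cA ≤ L := ⟨_, le_rfl⟩
  obtain ⟨m, hm, hm'⟩ := ex_ge2 ((60 * (k0 + 1) + 60) ^ 3)
    ((100000 * cP + 40000 + 3002 * L) * cE ^ (L + 1))
  obtain ⟨a', ha, ha'⟩ := ex_ge2 L (cL * FreeGroup.norm (θW m x0 x1 v))
  obtain ⟨n, hn, hn', hN⟩ := ex_ge3 ((c * hh + hh) ^ 2)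
    (cB3 * cE ^ (a' + (37 * cE ^ (a' + 1) + 52) + 1)) N
  refine ⟨⟨c, k0 + 1, m, n, L, a', v⟩, rfl, rfl, hN, fun hv => ?_⟩
  refine ⟨Nat.succ_pos _, hn, hm, hL, hm', ha, ?_, hn', hk, hv⟩
  unfold VW
  exact ha'

noncomputable def mkL (c N : ℕ) (v : F) : Law := (exLaw c N v).choose

theorem mkL_code (c N : ℕ) (v : F) : (mkL c N v).code = c := (exLaw c N v).choose_spec.1

theorem mkL_v (c N : ℕ) (v : F) : (mkL c N v).v = v := (exLaw c N v).choose_spec.2.1

theorem mkL_n (c N : ℕ) (v : F) : N < (mkL c N v).n := (exLaw c N v).choose_spec.2.2.1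

theorem mkL_ok (c N : ℕ) {v : F} (hv : v ∈ commutator F) : (mkL c N v).Ok :=
  (exLaw c N v).choose_spec.2.2.2 hv

/-- the default word -/
def c0 : F := x0 * x1 * x0⁻¹ * x1⁻¹

theorem c0_mem : c0 ∈ commutator F :=
  Subgroup.commutator_mem_commutator (Subgroup.mem_top x0) (Subgroup.mem_top x1)

open Classical in
/-- the choice of the word -/
noncomputable def pick (w : F) (P : Set Law) : F :=
  if w ∈ commutator F ∧ w ∉ Verb id P then w else c0

theorem pick_mem (w : F) (P : Set Law) : pick w P ∈ commutator F := by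
  unfold pick
  split_ifs with h
  · exact h.1
  · exact c0_mem

/-- state of the recursion -/
noncomputable def st (u : ℕ → F) : ℕ → Set Law × ℕ
  | 0 => (∅, 0)
  | j + 1 => (insert (mkL j (st u j).2 (pick (u j) (st u j).1)) (st u j).1,
      (mkL j (st u j).2 (pick (u j) (st u j).1)).n)

/-- the sequence of laws -/
noncomputable def sq (u : ℕ → F) (j : ℕ) : Law := mkL j (st u j).2 (pick (u j) (st u j).1)

theorem st_fst (u : ℕ → F) (j : ℕ) : (st u j).1 = sq u '' {i | i < j} := by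
  induction j with
  | zero => simp [st]
  | succ j ih =>
    have e : (st u (j + 1)).1 = insert (sq u j) (st u j).1 := rfl
    rw [e, ih, ← Set.image_insert_eq]
    congr 1
    ext i
    simp only [Set.mem_insert_iff, Set.mem_ofPred_eq]
    omega

theorem sq_mono (u : ℕ → F) : StrictMono fun j => (sq u j).n := by
  apply strictMono_nat_of_lt_succ
  intro j
  have e : (st u (j + 1)).2 = (sq u j).n := rfl
  have h := mkL_n (j + 1) (st u (j + 1)).2 (pick (u (j + 1)) (st u (j + 1)).1)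
  rw [e] at h
  exact h

theorem Verb_id {ι : Type} (L : ι → Law) (S : Set ι) : Verb id (L '' S) = Verb L S := by
  unfold Verb
  congr 1
  ext w
  constructor
  · rintro ⟨_, ⟨j, hj, rfl⟩, g, h, rfl⟩
    exact ⟨j, hj, g, h, rfl⟩
  · rintro ⟨j, hj, g, h, rfl⟩
    exact ⟨_, ⟨j, hj, rfl⟩, g, h, rfl⟩

theorem Verb_comp {ι κ : Type} (L : ι → Law) (f : κ → ι) (S : Set κ) :
    Verb (fun j => L (f j)) S = Verb L (f '' S) := by
  rw [← Verb_id (fun j => L (f j)), ← Verb_id L, Set.image_image]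

theorem sq_v (u : ℕ → F) (j : ℕ) : (sq u j).v = pick (u j) (sq u '' {i | i < j}) := by
  rw [← st_fst]
  exact mkL_v _ _ _

theorem sq_code (u : ℕ → F) (j : ℕ) : (sq u j).code = j := mkL_code _ _ _

theorem sq_ok (u : ℕ → F) (j : ℕ) : (sq u j).Ok := mkL_ok _ _ (pick_mem _ _)

theorem c0_not (hT : TowerStmt) {ι : Type} (L : ι → Law) (hL : Adm L) : c0 ∉ Verb L Set.univ := by
  have h := (hT ι L hL PUnit PUnit 1 (fun _ _ _ => 1) (fun _ _ _ _ => rfl)).2 1 Nat.one_pos
  rw [pow_one] at h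
  exact h

theorem sq_new (hT : TowerStmt) (u : ℕ → F) (j : ℕ) : (sq u j).v ∉ Verb (sq u) {i | i < j} := by
  induction j using Nat.strong_induction_on with
  | _ j ih =>
    rw [sq_v]
    unfold pick
    split_ifs with h
    · rw [← Verb_id]
      exact h.2
    · have hA : Adm (fun i : {i : ℕ // i < j} => sq u i.1) := by
        refine ⟨fun a b hab => ?_, fun i => sq_ok u i.1, fun i hi => ?_⟩
        · apply Subtype.ext
          have h1 := sq_code u a.1
          have h2 := sq_code u b.1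
          exact h1.symm.trans (Eq.trans hab h2)
        · apply ih i.1 i.2
          rw [Verb_comp (sq u) Subtype.val] at hi
          refine Verb_mono _ ?_ hi
          rintro _ ⟨a, ha, rfl⟩
          exact (sq_mono u).lt_iff_lt.1 ha
      intro hc
      apply c0_not hT _ hA
      rw [Verb_comp (sq u) Subtype.val]
      refine Verb_mono _ ?_ hc
      intro i hi
      exact ⟨⟨i, hi⟩, Set.mem_univ _, rfl⟩

theorem sq_adm (hT : TowerStmt) (u : ℕ → F) : Adm (sq u) := by
  refine ⟨fun a b hab => ?_, sq_ok u, fun j hj => ?_⟩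
  · exact (sq_code u a).symm.trans (Eq.trans hab (sq_code u b))
  · apply sq_new hT u j
    refine Verb_mono _ ?_ hj
    intro i hi
    exact (sq_mono u).lt_iff_lt.1 hi

/-- the first word -/
def u0 : F := (x0 * x1 * x0⁻¹ * x1⁻¹) * x0 * (x0 * x1 * x0⁻¹ * x1⁻¹)⁻¹ * x0⁻¹

theorem u0_mem : u0 ∈ commutator F :=
  Subgroup.commutator_mem_commutator (Subgroup.mem_top (x0 * x1 * x0⁻¹ * x1⁻¹))
    (Subgroup.mem_top x0)

theorem u0_ne : u0 ≠ 1 := by
  intro h
  have h1 := congrArg (ev (Equiv.swap (0 : Fin 3) 1) (Equiv.swap (1 : Fin 3) 2)) h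
  simp only [u0, map_mul, map_inv, ev_x0, ev_x1, map_one] at h1
  revert h1
  decide

theorem recS (hT : TowerStmt) : RecStmt := by
  have hc : Countable F := by
    unfold F FreeGroup
    infer_instance
  obtain ⟨e, he⟩ := exists_surjective_nat F
  let u : ℕ → F := fun j => Nat.casesOn j u0 e
  refine ⟨sq u, sq_adm hT u, ?_, fun w hw => ?_⟩
  · rw [sq_v]
    unfold pick
    rw [if_pos]
    · rfl
    · refine ⟨u0_mem, ?_⟩
      have e1 : Verb id (sq u '' {i | i < 0}) = ⊥ := by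
        unfold Verb
        simp
      rw [e1]
      exact u0_ne
  · obtain ⟨j, rfl⟩ := he w
    by_cases h : e j ∈ Verb id (sq u '' {i | i < j + 1})
    · left
      rw [Verb_id] at h
      exact Verb_mono _ (Set.subset_univ _) h
    · right
      refine ⟨j + 1, ?_⟩
      rw [sq_v]
      unfold pick
      exact if_pos ⟨hw, h⟩

end Pool.Agent.MP_5c28a4_al.H72
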